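import Pool.Agent.Helper48.H3.Main3

/-! Project H3 (joins): degrees. -/

set_option autoImplicit false

namespace Pool.Agent.Helper48.H3

open IntermediateField Pool.Agent.Helper75.QC Pool.Agent.Helper48.HH

theorem finrank_le_of_pow {F K : Type} [Field F] [Field K] [Algebra F K] {w : K} {m : ℕ}
    (hm : 0 < m) (hw : ∃ c : F, algebraMap F K c = w ^ m) (htop : adjoin F {w} = ⊤) :
    FiniteDimensional F K ∧ Module.finrank F K ≤ m := by
  obtain ⟨c, hc⟩ := hw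
  have h0 : Polynomial.aeval w (Polynomial.X ^ m - Polynomial.C c) = 0 := by
    rw [map_sub, map_pow, Polynomial.aeval_X, Polynomial.aeval_C, hc, sub_self]
  have hmon : (Polynomial.X ^ m - Polynomial.C c : Polynomial F).Monic :=
    Polynomial.monic_X_pow_sub_C c hm.ne'
  have hint : IsIntegral F w := ⟨_, hmon, h0⟩
  have h1 : FiniteDimensional F (adjoin F {w}) := adjoin.finiteDimensional hint
  have h2 : Module.finrank F (adjoin F {w}) ≤ m := by
    rw [adjoin.finrank hint]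
    refine (Polynomial.natDegree_le_of_dvd (minpoly.dvd F w h0) hmon.ne_zero).trans ?_
    rw [Polynomial.natDegree_X_pow_sub_C]
  rw [htop] at h1 h2
  have h3 : FiniteDimensional F K := LinearEquiv.finiteDimensional
    (topEquiv (F := F) (E := K)).toLinearEquiv
  refine ⟨h3, ?_⟩
  rwa [finrank_top'] at h2

theorem le_finrank {F K : Type} [Field F] [Field K] [Algebra F K] [FiniteDimensional F K]
    (σ : K →ₐ[F] K) (n : ℕ) (hinj : ∀ i < n, ∀ j < n, σ ^ i = σ ^ j → i = j) :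
    n ≤ Module.finrank F K := by
  have h1 := Fintype.card_le_of_injective (fun i : Fin n => σ ^ (i : ℕ)) (fun i j h =>
    Fin.ext (hinj i i.2 j j.2 h))
  rw [Fintype.card_fin] at h1
  exact h1.trans AlgHom.card_le

/-- the powers of an automorphism `w ↦ ζ w` -/
theorem pow_apply {Ω K : Type} [Field Ω] [Field K] [Algebra Ω K] {σ : K →ₐ[Ω] K} {w : K} {ζ : Ω}
    (h : σ w = algebraMap Ω K ζ * w) (j : ℕ) : (σ ^ j) w = algebraMap Ω K (ζ ^ j) * w := by
  induction j with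
  | zero => simp
  | succ j ih =>
    rw [pow_succ', AlgHom.mul_apply, ih, map_mul, AlgHom.commutes, h, ← mul_assoc, ← map_mul,
      ← pow_succ]

theorem inj_of_prim {Ω K : Type} [Field Ω] [Field K] [Algebra Ω K] {w : K} (hw : w ≠ 0) {ζ : Ω}
    {n : ℕ} (hζ : IsPrimitiveRoot ζ n) {i j : ℕ} (hi : i < n) (hj : j < n)
    (h : algebraMap Ω K (ζ ^ i) * w = algebraMap Ω K (ζ ^ j) * w) : i = j :=
  hζ.pow_inj hi hj ((algebraMap Ω K).injective (mul_right_cancel₀ hw h))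

/-- cyclic covers of the plane -/
theorem isCyc_of {Ω M : Type} [Field Ω] [Field M] [Algebra Ω M] {n : ℕ} {ζ : Ω} {x y w : M}
    {σ : M →ₐ[Ω] M} (hn : 0 < n) (hζ : IsPrimitiveRoot ζ n) (hgen : adjoin Ω {x, y, w} = ⊤)
    (hw : w ≠ 0) (hmem : w ^ n ∈ adjoin Ω {x, y}) (hx : σ x = x) (hy : σ y = y)
    (hσ : σ w = algebraMap Ω M ζ * w) : IsCyc Ω n ζ x y w σ := by
  have : NeZero n := ⟨hn.ne'⟩
  refine ⟨hn, hζ.neZero'.out, hζ, hgen, ?_, hw, hmem, hx, hy, hσ⟩
  have htop : adjoin (adjoin Ω {x, y} : IntermediateField Ω M) {w} = ⊤ := by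
    refine top_of_gen _ ?_ hgen
    rintro k (rfl | rfl | rfl)
    · exact Or.inl (subset_adjoin _ _ (by simp))
    · exact Or.inl (subset_adjoin _ _ (by simp))
    · exact Or.inr rfl
  obtain ⟨h1, h2⟩ := finrank_le_of_pow hn ⟨⟨w ^ n, hmem⟩, rfl⟩ htop
  refine le_antisymm h2 ?_
  let σ' : M →ₐ[adjoin Ω {x, y}] M :=
    { toRingHom := (σ : M →+* M)
      commutes' := fun b => fix_of (S := {x, y}) (by
        rintro k (rfl | rfl)
        exacts [hx, hy]) b.2 }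
  have h3 : ∀ j : ℕ, (σ' ^ j) w = algebraMap Ω M (ζ ^ j) * w := by
    intro j
    have h4 : σ' w = algebraMap Ω M ζ * w := hσ
    induction j with
    | zero => simp
    | succ j ih =>
      rw [pow_succ', AlgHom.mul_apply, ih, map_mul]
      have h5 : σ' (algebraMap Ω M (ζ ^ j)) = algebraMap Ω M (ζ ^ j) := σ.commutes _
      rw [h5, h4, ← mul_assoc, ← map_mul, ← pow_succ]
  refine le_finrank σ' n fun i hi j hj h4 => inj_of_prim hw hζ hi hj ?_
  rw [← h3, ← h3, h4]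

section

variable {Ω M M' : Type} [Field Ω] [IsAlgClosed Ω] [Field M] [Algebra Ω M] [Field M']
  [Algebra Ω M']

/-- rows over the plane -/
theorem RowP3.of_rowP {Ω M : Type} [Field Ω] [Field M] [Algebra Ω M] {σ : M →ₐ[Ω] M} {n α β : ℕ}
    {ζ : Ω} (h : RowP Ω M σ n α β ζ) : RowP3 Ω M σ n α β ζ := by
  obtain ⟨x, y, w, h1, h2, h3, h4, h5, h6, h7⟩ := h
  have e0 : ∀ {N : Type} (x y : N), ({x, y, x} : Set N) = {x, y} := by
    intro N x y
    ext k
    simp only [Set.mem_insert_iff, Set.mem_singleton_iff]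
    tauto
  have e1 : ({x, y, x, w} : Set M) = {x, y, w} := by
    ext k
    simp only [Set.mem_insert_iff, Set.mem_singleton_iff]
    tauto
  refine ⟨x, y, x, w, ?_, ?_, h2, ?_, h4, h5, h4, h6, fun N _ _ g v s hv hs => ?_⟩
  · rw [← coe_AF]
    exact subset_AF _ (by simp)
  · rw [e1]
    exact h1
  · rw [e0]
    exact h3
  · have e2 : ({g x, g y, g x, v, s} : Set N) = {g x, g y, v, s} := by
      ext k
      simp only [Set.mem_insert_iff, Set.mem_singleton_iff]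
      tauto
    rw [e2]
    exact h7 N g v s hv hs

/-- the alternatives for a pair -/
def Pair3 (Ω : Type) {M M' : Type} [Field Ω] [Field M] [Algebra Ω M] [Field M'] [Algebra Ω M']
    (n : ℕ) (σ : M →ₐ[Ω] M) (σ' : M' →ₐ[Ω] M') : Prop :=
  Uniruled Ω M 2 ∨ Uniruled Ω M' 2 ∨ ∃ (α β : ℕ) (ζ : Ω), IsPrimitiveRoot ζ n ∧
    (α.gcd β).Coprime n ∧ ¬ n ∣ α ∧ ¬ n ∣ β ∧ ¬ n ∣ α + β ∧ RowP3 Ω M σ n α β ζ ∧
      RowP3 Ω M' σ' n α β ζ

theorem Pair3.of_pairRow {n : ℕ} {ζ : Ω} {σ : M →ₐ[Ω] M} {σ' : M' →ₐ[Ω] M'}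
    (hζ : IsPrimitiveRoot ζ n) (h : PairRow Ω n ζ σ σ') : Pair3 Ω n σ σ' := by
  rcases h with h | h | ⟨α, β, t, ht, h1, h2, h3, h4, h5, h6⟩
  · exact Or.inl h
  · exact Or.inr (Or.inl h)
  · exact Or.inr (Or.inr ⟨α, β, ζ ^ t, hζ.pow_of_coprime t ht, h1, h2, h3, h4, RowP3.of_rowP h5,
      RowP3.of_rowP h6⟩)

end

end Pool.Agent.Helper48.H3
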