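import Pool.Agent.Helper48.H3.Deg3
import Pool.Agent.Helper73.V7.Ell

/-! Project H3 (joins): the examples. -/

set_option autoImplicit false

namespace Pool.Agent.Helper48.H3

open IntermediateField MvPolynomial Pool.Agent.Helper75.QC Pool.Agent.Helper48.HH
  Pool.Agent.Helper73.V7 Pool.Agent.Helper9.TR

/-- The equation `F(x, y, t) = 0`, where the degree of `F` for the weights `a`, `b`, `2 * c` of the
variables is at most `a + b + c`. -/
def IsPull (Ω : Type) {N : Type} [Field Ω] [Field N] [Algebra Ω N] (x y t : N) : Prop :=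
  ∃ (a b c : ℕ) (F : MvPolynomial (Fin 3) Ω), 0 < a + b + c ∧ F ≠ 0 ∧
    (∀ m ∈ F.support, a * m 0 + b * m 1 + 2 * c * m 2 ≤ a + b + c) ∧ aeval ![x, y, t] F = 0

variable {Ω M : Type} [Field Ω] [IsAlgClosed Ω] [Field M] [Algebra Ω M]

/-- the twist by `u ^ n = v * (1 - v)` -/
theorem row_pull {n : ℕ} (h3 : 2 < n) {ζ : Ω} {σ : M →ₐ[Ω] M} {x y w : M} (hw0 : w ≠ 0)
    (hM : adjoin Ω {x, y, w} = ⊤) (hx : σ x = x) (hy : σ y = y) (hζ : IsPrimitiveRoot ζ n)
    (hσ : σ w = algebraMap Ω M ζ * w) (h : IsPull Ω x y (w ^ n)) : RowP3 Ω M σ n 1 1 ζ := by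
  classical
  obtain ⟨a, b, c, F, hpos, hF, hd, h0⟩ := h
  have hn0 : 0 < n := by omega
  have hd' : WLE ![a, b, 2 * c] (a + b + c) F := by
    intro m hm
    rw [Fin.sum_univ_three]
    exact hd m hm
  obtain ⟨t, ht⟩ : ∃ t, t = w ^ n := ⟨_, rfl⟩
  rw [← ht] at h0
  have hσt : σ t = t := by
    rw [ht, map_pow, hσ, mul_pow, ← map_pow, hζ.pow_eq_one, map_one, one_mul]
  obtain ⟨e, he⟩ := acl_of_rel F hF ![x, y, t] h0
  have hset : ∀ {N : Type} (z : Fin 3 → N), ({z (e 0), z (e 1), z (e 2)} : Set N) =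
      {z 0, z 1, z 2} := by
    intro N z
    have h1 : ∀ q : Fin 3 → N, Set.range q = {q 0, q 1, q 2} := by
      intro q
      ext k
      constructor
      · rintro ⟨i, rfl⟩
        fin_cases i
        · exact Or.inl rfl
        · exact Or.inr (Or.inl rfl)
        · exact Or.inr (Or.inr rfl)
      · rintro (rfl | rfl | rfl)
        · exact ⟨0, rfl⟩
        · exact ⟨1, rfl⟩
        · exact ⟨2, rfl⟩
    have h2 := h1 (z ∘ e)
    rw [e.surjective.range_comp, h1 z] at h2
    exact h2.symm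
  have hs0 : ({![x, y, t] (e 0), ![x, y, t] (e 1), ![x, y, t] (e 2)} : Set M) = {x, y, t} :=
    hset ![x, y, t]
  have hfix : ∀ i : Fin 3, σ (![x, y, t] i) = ![x, y, t] i := by
    intro i
    fin_cases i
    · exact hx
    · exact hy
    · exact hσt
  refine ⟨![x, y, t] (e 0), ![x, y, t] (e 1), ![x, y, t] (e 2), w, he, ?_, hw0, ?_, hfix _,
    hfix _, hfix _, hσ, fun N _ _ g v s hv hs => ?_⟩
  · rw [eq_top_iff, ← hM, adjoin_le_iff]
    have h1 : ({x, y, t} : Set M) ⊆ {![x, y, t] (e 0), ![x, y, t] (e 1), ![x, y, t] (e 2), w} := by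
      rw [← hs0]
      rintro k (rfl | rfl | rfl)
      · exact Or.inl rfl
      · exact Or.inr (Or.inl rfl)
      · exact Or.inr (Or.inr (Or.inl rfl))
    rintro k (rfl | rfl | rfl)
    · exact subset_adjoin _ _ (h1 (by simp))
    · exact subset_adjoin _ _ (h1 (by simp))
    · exact subset_adjoin _ _ (by simp)
  · rw [hs0, ← ht]
    exact subset_adjoin _ _ (by simp)
  · have hs1 : ({g (![x, y, t] (e 0)), g (![x, y, t] (e 1)), g (![x, y, t] (e 2)), v, s} : Set N) =
        {g x, g y, g t, v, s} := by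
      have h1 := hset (g ∘ ![x, y, t])
      have h2 : ∀ (p q r p' q' r' : N), ({p, q, r} : Set N) = {p', q', r'} →
          ({p, q, r, v, s} : Set N) = {p', q', r', v, s} := by
        intro p q r p' q' r' h
        have e1 : ∀ (p q r : N), ({p, q, r, v, s} : Set N) = {p, q, r} ∪ {v, s} := by
          intro p q r
          ext k
          simp only [Set.mem_insert_iff, Set.mem_singleton_iff, Set.mem_union]
          tauto
        rw [e1, e1, h]
      exact h2 _ _ _ _ _ _ h1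
    rw [hs1]
    rw [pow_one, pow_one] at hs
    have hv0 : v ≠ 0 := by
      rintro rfl
      exact hv (isAlgebraic_zero)
    have hv1 : 1 - v ≠ 0 := by
      intro h
      have h1 : v = 1 := by linear_combination -h
      rw [h1] at hv
      exact hv isAlgebraic_one
    have hs0 : s ≠ 0 := by
      rintro rfl
      rw [zero_pow hn0.ne', zero_mul] at hs
      exact mul_ne_zero hv0 hv1 hs
    have h4 : aeval ![g x, g y, g t] F = 0 := by
      have h5 : ![g x, g y, g t] = g ∘ ![x, y, t] := by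
        funext i
        fin_cases i <;> rfl
      rw [h5]
      have h6 : aeval (g ∘ ![x, y, t]) F = g (aeval ![x, y, t] F) := by
        rw [← AlgHom.comp_apply, comp_aeval]
        rfl
      rw [h6, h0, map_zero]
    refine uni_pull (n := n) hpos F hF hd' (g x) (g y) (g t) v s hs0 h4 ?_
    rw [hs, ht, map_pow]

variable {M' : Type} [Field M'] [Algebra Ω M'] {n : ℕ} {ζ : Ω} {σ : M →ₐ[Ω] M}
  {σ' : M' →ₐ[Ω] M'} {x y w : M} {x' y' w' : M'}

theorem uni_of_zero (hM : adjoin Ω {x, y, w} = ⊤) (hw : w = 0) : Uniruled Ω M 2 :=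
  Pool.Agent.Helper35.TD.uniruled_surface (n := 1) x y w hM (by rw [hw]; exact zero_mem _)

/-- **Pullbacks.** -/
theorem pair_pull (hn : 0 < n) (hζ : IsPrimitiveRoot ζ n) (hM : adjoin Ω {x, y, w} = ⊤)
    (hx : σ x = x) (hy : σ y = y) (hσ : σ w = algebraMap Ω M ζ * w)
    (hM' : adjoin Ω {x', y', w'} = ⊤) (hx' : σ' x' = x') (hy' : σ' y' = y')
    (hσ' : σ' w' = algebraMap Ω M' ζ * w') (h : IsPull Ω x y (w ^ n))
    (h' : IsPull Ω x' y' (w' ^ n)) : Pair3 Ω n σ σ' := by
  by_cases hw : w = 0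
  · exact Or.inl (uni_of_zero hM hw)
  by_cases hw' : w' = 0
  · exact Or.inr (Or.inl (uni_of_zero hM' hw'))
  rcases Nat.lt_or_ge 2 n with h3 | h3
  · refine Or.inr (Or.inr ⟨1, 1, ζ, hζ, by simp, ?_, ?_, ?_, row_pull h3 hw hM hx hy hζ hσ h,
      row_pull h3 hw' hM' hx' hy' hζ hσ' h'⟩)
    · intro h
      have := Nat.le_of_dvd one_pos h
      omega
    · intro h
      have := Nat.le_of_dvd one_pos h
      omega
    · intro h
      have := Nat.le_of_dvd two_pos h
      omega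
  · left
    obtain ⟨a, b, c, F, hpos, hF, hd, h0⟩ := h
    have hd' : WLE ![a, b, 2 * c] (a + b + c) F := by
      intro m hm
      rw [Fin.sum_univ_three]
      exact hd m hm
    exact Pool.Agent.Helper75.TC.uniruled_of_gen hM (uni_low hn h3 F hF hd' hpos x y w h0)

/-- **Covers with the same exponents.** -/
theorem pair_curves (hn : 0 < n) (hζ : IsPrimitiveRoot ζ n) (hM : adjoin Ω {x, y, w} = ⊤)
    (hx : σ x = x) (hy : σ y = y) (hσ : σ w = algebraMap Ω M ζ * w)
    (hM' : adjoin Ω {x', y', w'} = ⊤) (hx' : σ' x' = x') (hy' : σ' y' = y')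
    (hσ' : σ' w' = algebraMap Ω M' ζ * w') (h : IsCurves Ω n x y w x' y' w') :
    Pair3 Ω n σ σ' := by
  by_cases hw : w = 0
  · exact Or.inl (uni_of_zero hM hw)
  by_cases hw' : w' = 0
  · exact Or.inr (Or.inl (uni_of_zero hM' hw'))
  obtain ⟨r, d, e, f, g, hf, hg, hdvd, hc, heq, heq'⟩ := h
  have hmem : w ^ n ∈ adjoin Ω {x, y} := by
    rw [heq]
    exact prod_mem fun i _ => pow_mem (Pool.Agent.Helper9.TR.aeval_mem x y _) _
  have hmem' : w' ^ n ∈ adjoin Ω {x', y'} := by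
    rw [heq']
    exact prod_mem fun i _ => pow_mem (Pool.Agent.Helper9.TR.aeval_mem x' y' _) _
  have h1 := isCyc_of hn hζ hM hw hmem hx hy hσ
  have h1' := isCyc_of hn hζ hM' hw' hmem' hx' hy' hσ'
  rcases Nat.lt_or_ge 1 n with h2 | h2
  · refine Pair3.of_pairRow hζ ?_
    rcases hc with ⟨hn7, hc⟩ | ⟨hr, hc⟩
    · exact pair_curve (track_of h2 hn7) h2 h1 h1' d e hdvd hc f hf heq g hg heq'
    · exact pair_curve3 h2 h1 h1' d e hr hdvd hc f hf heq g hg heq'
  · left
    have h3 : n = 1 := by omega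
    subst h3
    rw [pow_one] at hmem
    exact Pool.Agent.Helper35.TD.uniruled_surface (n := 1) x y w hM hmem

/-- **Trinomials.** -/
theorem pair_tris (hn : 0 < n) (hζ : IsPrimitiveRoot ζ n) (hM : adjoin Ω {x, y, w} = ⊤)
    (hx : σ x = x) (hy : σ y = y) (hσ : σ w = algebraMap Ω M ζ * w)
    (hM' : adjoin Ω {x', y', w'} = ⊤) (hx' : σ' x' = x') (hy' : σ' y' = y')
    (hσ' : σ' w' = algebraMap Ω M' ζ * w') {s t : ℕ} (h : IsTri Ω s t n x y w)
    (h' : IsTri Ω s t n x' y' w') : Pair3 Ω n σ σ' := by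
  by_cases hw : w = 0
  · exact Or.inl (uni_of_zero hM hw)
  by_cases hw' : w' = 0
  · exact Or.inr (Or.inl (uni_of_zero hM' hw'))
  have key : ∀ {N : Type} [Field N] [Algebra Ω N] {x y w : N}, IsTri Ω s t n x y w →
      w ^ n ∈ adjoin Ω {x, y} := by
    rintro N _ _ x y w ⟨-, -, -, a, b, c, f, g, h, -, -, -, -, hg, heq⟩
    rw [← mul_div_cancel_right₀ (w ^ n) (pow_ne_zero (s + t) hg), heq]
    exact div_mem (mul_mem (pow_mem (Pool.Agent.Helper9.TR.aeval_mem x y f) _)
      (pow_mem (Pool.Agent.Helper9.TR.aeval_mem x y h) _))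
      (pow_mem (Pool.Agent.Helper9.TR.aeval_mem x y g) _)
  exact Pair3.of_pairRow hζ (pair_tri (isCyc_of hn hζ hM hw (key h) hx hy hσ)
    (isCyc_of hn hζ hM' hw' (key h') hx' hy' hσ') h h')

end Pool.Agent.Helper48.H3
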