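import Mathlib

/-! Project H3 (joins): the projectors to the isotypic components of a finite abelian group. -/

set_option autoImplicit false

namespace Pool.Agent.Helper48.H3

open TensorProduct

section Char

variable {L A : Type} [Field L] [CharZero L] [IsAlgClosed L] [CommGroup A] [Fintype A]

theorem finite_char (L A : Type) [Field L] [CharZero L] [IsAlgClosed L] [CommGroup A] [Fintype A] :
    Finite (A →* Lˣ) ∧ Nat.card (A →* Lˣ) = Fintype.card A := by
  have hexp : Monoid.exponent A ≠ 0 := Monoid.exponent_ne_zero_of_finite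
  have : NeZero ((Monoid.exponent A : ℕ) : L) := ⟨by exact_mod_cast hexp⟩
  have h1 := CommGroup.card_monoidHom_of_hasEnoughRootsOfUnity A L
  have h2 : Nat.card A = Fintype.card A := Nat.card_eq_fintype_card
  refine ⟨Nat.finite_of_card_ne_zero ?_, h1.trans h2⟩
  rw [h1, h2]
  exact Fintype.card_ne_zero

open Classical in
/-- the sum of the values of the characters -/
theorem sum_char [Fintype (A →* Lˣ)] (b : A) :
    ∑ χ : A →* Lˣ, ((χ b : Lˣ) : L) = if b = 1 then (Fintype.card A : L) else 0 := by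
  classical
  split_ifs with hb
  · subst hb
    simp only [map_one, Units.val_one, Finset.sum_const, Finset.card_univ, nsmul_eq_mul, mul_one]
    have h1 := (finite_char L A).2
    rw [Nat.card_eq_fintype_card] at h1
    rw [h1]
  · have hexp : Monoid.exponent A ≠ 0 := Monoid.exponent_ne_zero_of_finite
    have : NeZero ((Monoid.exponent A : ℕ) : L) := ⟨by exact_mod_cast hexp⟩
    obtain ⟨ψ, hψ⟩ := CommGroup.exists_apply_ne_one_of_hasEnoughRootsOfUnity A L hb
    have h1 : ((ψ b : Lˣ) : L) * ∑ χ : A →* Lˣ, ((χ b : Lˣ) : L) =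
        ∑ χ : A →* Lˣ, ((χ b : Lˣ) : L) := by
      rw [Finset.mul_sum]
      refine Fintype.sum_equiv (Equiv.mulLeft ψ) _ _ fun χ => ?_
      rw [Equiv.coe_mulLeft, MonoidHom.mul_apply, Units.val_mul]
    have h2 : (((ψ b : Lˣ) : L) - 1) * ∑ χ : A →* Lˣ, ((χ b : Lˣ) : L) = 0 := by
      rw [sub_mul, h1, one_mul, sub_self]
    refine (mul_eq_zero.1 h2).resolve_left fun h3 => hψ ?_
    exact Units.ext (sub_eq_zero.1 h3)

end Char

variable {L A V V' : Type} [Field L] [CommGroup A] [Fintype A] [AddCommGroup V] [Module L V]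
  [AddCommGroup V'] [Module L V']

/-- the projector to the isotypic component of the character `χ` -/
noncomputable def proj (χ : A →* Lˣ) (R : A →* Module.End L V) : Module.End L V :=
  ((Fintype.card A : L)⁻¹) • ∑ a, (((χ a)⁻¹ : Lˣ) : L) • R a

theorem proj_apply (χ : A →* Lˣ) (R : A →* Module.End L V) (v : V) :
    proj χ R v = ((Fintype.card A : L)⁻¹) • ∑ a, (((χ a)⁻¹ : Lˣ) : L) • R a v := by
  simp [proj]

/-- the action on the component -/
theorem proj_map (χ : A →* Lˣ) (R : A →* Module.End L V) (b : A) (v : V) :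
    R b (proj χ R v) = ((χ b : Lˣ) : L) • proj χ R v := by
  rw [proj_apply, map_smul, smul_comm ((χ b : Lˣ) : L)]
  congr 1
  rw [map_sum, Finset.smul_sum]
  refine Fintype.sum_equiv (Equiv.mulLeft b) _ _ fun a => ?_
  rw [Equiv.coe_mulLeft, map_smul, smul_smul, map_mul, map_mul, Module.End.mul_apply]
  congr 1
  rw [mul_inv_rev, Units.val_mul, mul_comm ((χ b : Lˣ) : L), mul_assoc, Units.inv_mul, mul_one]

/-- compatibility with homomorphisms -/
theorem proj_comm {W : Type} [AddCommGroup W] [Module L W] (χ : A →* Lˣ)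
    (R : A →* Module.End L V) (R' : A →* Module.End L W) (f : V →ₗ[L] W)
    (hf : ∀ a v, f (R a v) = R' a (f v)) (v : V) : f (proj χ R v) = proj χ R' (f v) := by
  rw [proj_apply, proj_apply, map_smul, map_sum]
  congr 1
  refine Finset.sum_congr rfl fun a _ => ?_
  rw [map_smul, hf]

/-- invariant tensors -/
theorem tensor_sum3 [CharZero L] [IsAlgClosed L] [Fintype (A →* Lˣ)] (R : A →* Module.End L V)
    (R' : A →* Module.End L V') (t : V ⊗[L] V')
    (ht : ∀ a, TensorProduct.map (R a) (R' a) t = t) :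
    ∑ χ : A →* Lˣ, TensorProduct.map (proj χ R) (proj χ⁻¹ R') t = t := by
  classical
  have hN : (Fintype.card A : L) ≠ 0 := by exact_mod_cast Fintype.card_ne_zero
  obtain ⟨F, hF⟩ : ∃ F : A → A → V ⊗[L] V', ∀ a b, F a b = TensorProduct.map (R a) (R' b) t :=
    ⟨_, fun _ _ => rfl⟩
  -- the dependence on `a⁻¹ b`
  have h1 : ∀ a b, a = b → F a b = t := by
    rintro a _ rfl
    rw [hF, ht]
  have h2 : ∀ χ : A →* Lˣ, TensorProduct.map (proj χ R) (proj χ⁻¹ R') t =
      ((Fintype.card A : L)⁻¹ * (Fintype.card A : L)⁻¹) •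
        ∑ a, ∑ b, ((χ (a⁻¹ * b) : Lˣ) : L) • F a b := by
    intro χ
    have e1 : TensorProduct.map (proj χ R) (proj χ⁻¹ R') =
        ((Fintype.card A : L)⁻¹ * (Fintype.card A : L)⁻¹) •
        ∑ a, ∑ b, ((χ (a⁻¹ * b) : Lˣ) : L) • TensorProduct.map (R a) (R' b) := by
      refine TensorProduct.ext' fun x y => ?_
      rw [map_tmul, proj_apply, proj_apply, smul_tmul_smul, LinearMap.smul_apply]
      congr 1
      rw [sum_tmul, LinearMap.sum_apply]
      refine Finset.sum_congr rfl fun a _ => ?_
      rw [tmul_sum, LinearMap.sum_apply]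
      refine Finset.sum_congr rfl fun b _ => ?_
      rw [smul_tmul_smul, LinearMap.smul_apply, map_tmul]
      congr 1
      rw [MonoidHom.inv_apply, inv_inv, map_mul, map_inv, Units.val_mul]
    rw [e1, LinearMap.smul_apply, LinearMap.sum_apply]
    congr 1
    refine Finset.sum_congr rfl fun a _ => ?_
    rw [LinearMap.sum_apply]
    refine Finset.sum_congr rfl fun b _ => ?_
    rw [LinearMap.smul_apply, hF]
  rw [Finset.sum_congr rfl fun χ _ => h2 χ, ← Finset.smul_sum, Finset.sum_comm]
  have h3 : ∀ a, ∑ χ : A →* Lˣ, ∑ b, ((χ (a⁻¹ * b) : Lˣ) : L) • F a b =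
      (Fintype.card A : L) • t := by
    intro a
    rw [Finset.sum_comm]
    have h4 : ∀ b, ∑ χ : A →* Lˣ, ((χ (a⁻¹ * b) : Lˣ) : L) • F a b =
        if b = a then (Fintype.card A : L) • t else 0 := by
      intro b
      rw [← Finset.sum_smul, sum_char]
      by_cases hb : b = a
      · subst hb
        rw [if_pos (inv_mul_cancel b), if_pos rfl, h1 b b rfl]
      · rw [if_neg, if_neg hb, zero_smul]
        intro h5
        exact hb (inv_mul_eq_one.1 h5).symm
    rw [Finset.sum_congr rfl fun b _ => h4 b, Finset.sum_ite_eq' Finset.univ a,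
      if_pos (Finset.mem_univ a)]
  rw [Finset.sum_congr rfl fun a _ => h3 a, Finset.sum_const, Finset.card_univ, ← Nat.cast_smul_eq_nsmul L,
    smul_smul, smul_smul]
  have h4 : (Fintype.card A : L)⁻¹ * (Fintype.card A : L)⁻¹ * (Fintype.card A : L) *
      (Fintype.card A : L) = 1 := by field_simp
  rw [h4, one_smul]

end Pool.Agent.Helper48.H3
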