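import Pool.Agent.Helper48.H3.Side3
import Pool.Agent.Helper48.H3.Lin3

/-! Project H3 (joins): the fixed fields of the subgroups. -/

set_option autoImplicit false

namespace Pool.Agent.Helper48.H3

open IntermediateField Pool.Agent.Helper75.QC Pool.Agent.Helper75.WC Pool.Agent.Helper48.HH

section

variable {Ω K : Type} [Field Ω] [Field K] [Algebra Ω K]

/-- the fixed field of a finite group -/
theorem galois_fixed (H : Subgroup (K ≃ₐ[Ω] K)) [Finite H] :
    FiniteDimensional (fixedField H) K ∧ IsGalois (fixedField H) K ∧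
      ∀ τ : K →ₐ[fixedField H] K, ∃ h ∈ H, ∀ k, τ k = h k := by
  refine ⟨?_, ?_, fun τ => ?_⟩
  · exact (inferInstance : FiniteDimensional (FixedPoints.subfield H K) K)
  · exact (inferInstance : IsGalois (FixedPoints.subfield H K) K)
  · obtain ⟨h, hh⟩ := (FixedPoints.toAlgHom_bijective H K).surjective τ
    exact ⟨h, h.2, fun k => (DFunLike.congr_fun hh k).symm⟩

variable {A : Type} [CommGroup A] [Fintype A] (ρ : A →* (K ≃ₐ[Ω] K))

/-- the fixed field of a subgroup of `A` -/
abbrev fixed (H : Subgroup A) : IntermediateField Ω K := fixedField (H.map ρ)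

theorem mem_fixed {H : Subgroup A} {k : K} : k ∈ fixed ρ H ↔ ∀ a ∈ H, ρ a k = k := by
  rw [mem_fixedField_iff]
  constructor
  · exact fun h a ha => h _ ⟨a, ha, rfl⟩
  · rintro h _ ⟨a, ha, rfl⟩
    exact h a ha

theorem fixed_stable (H : Subgroup A) (a : A) {k : K} (hk : k ∈ fixed ρ H) :
    ρ a k ∈ fixed ρ H := by
  rw [mem_fixed] at hk ⊢
  intro b hb
  rw [← AlgEquiv.mul_apply, ← map_mul, mul_comm, map_mul, AlgEquiv.mul_apply, hk b hb]

/-- the action of `A` on the fixed field -/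
def res (H : Subgroup A) (a : A) : fixed ρ H →ₐ[Ω] fixed ρ H where
  toFun := fun k => ⟨ρ a k, fixed_stable ρ H a k.2⟩
  map_one' := Subtype.ext (map_one (ρ a))
  map_mul' := fun k l => Subtype.ext (map_mul (ρ a) _ _)
  map_zero' := Subtype.ext (map_zero (ρ a))
  map_add' := fun k l => Subtype.ext (map_add (ρ a) _ _)
  commutes' := fun c => Subtype.ext ((ρ a).commutes c)

theorem res_coe (H : Subgroup A) (a : A) (k : fixed ρ H) : (res ρ H a k : K) = ρ a k := rfl

theorem val_res (H : Subgroup A) (a : A) :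
    (fixed ρ H).val.comp (res ρ H a) = (ρ a : K →ₐ[Ω] K).comp (fixed ρ H).val := rfl

theorem finite_map (H : Subgroup A) : Finite (H.map ρ) :=
  Finite.of_surjective (fun h : H => (⟨ρ h, h, h.2, rfl⟩ : H.map ρ)) (by
    rintro ⟨_, a, ha, rfl⟩
    exact ⟨⟨a, ha⟩, rfl⟩)

theorem fixed_algebraic (H : Subgroup A) (k : K) : IsAlgebraic (fixed ρ H).val.fieldRange k := by
  have : Finite (H.map ρ) := finite_map ρ H
  have h0 := (galois_fixed (H.map ρ)).1
  have h1 : IsAlgebraic (fixed ρ H) k := Algebra.IsAlgebraic.isAlgebraic k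
  obtain ⟨p, hp0, hp⟩ := h1
  let e : fixed ρ H →+* (fixed ρ H).val.fieldRange := (fixed ρ H).val.rangeRestrict.toRingHom
  refine ⟨p.map e, ?_, ?_⟩
  · rw [Ne, Polynomial.map_eq_zero_iff e.injective]
    exact hp0
  · rw [Polynomial.aeval_def, Polynomial.eval₂_map]
    exact hp

/-- classes which are fixed by the subgroup -/
theorem descent_fixed {L : Type} [Field L] (T : BaseTheory Ω L) (H : Subgroup A) (r : ℕ)
    (t : T.H r K) (ht : ∀ a ∈ H, T.map r (ρ a : K →ₐ[Ω] K) t = t) :
    t ∈ LinearMap.range (T.map r (fixed ρ H).val) := by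
  have : Finite (H.map ρ) := finite_map ρ H
  obtain ⟨h0, h1, h2⟩ := galois_fixed (H.map ρ)
  refine T.descent r K (fixed ρ H) t fun τ => ?_
  obtain ⟨_, ⟨a, ha, rfl⟩, hτ⟩ := h2 τ
  have h3 : τ.restrictScalars Ω = (ρ a : K →ₐ[Ω] K) := AlgHom.ext hτ
  rw [h3]
  exact ht a ha

/-- the representation in the cohomology -/
def rep {L : Type} [Field L] (T : BaseTheory Ω L) (r : ℕ) : A →* Module.End L (T.H r K) where
  toFun := fun a => T.map r (ρ a : K →ₐ[Ω] K)
  map_one' := by
    have h1 : ((ρ 1 : K ≃ₐ[Ω] K) : K →ₐ[Ω] K) = AlgHom.id Ω K := by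
      rw [map_one]
      rfl
    rw [h1, T.map_id]
    rfl
  map_mul' := fun a b => by
    have h1 : ((ρ (a * b) : K ≃ₐ[Ω] K) : K →ₐ[Ω] K) =
        (ρ a : K →ₐ[Ω] K).comp (ρ b : K →ₐ[Ω] K) := by
      rw [map_mul]
      rfl
    rw [h1, T.map_comp]
    rfl

theorem rep_apply {L : Type} [Field L] (T : BaseTheory Ω L) (r : ℕ) (a : A) :
    rep ρ T r a = T.map r (ρ a : K →ₐ[Ω] K) := rfl

end

/-- a subfield of a uniruled field -/
theorem uniruled_of_hom {Ω E F : Type} [Field Ω] [Field E] [Algebra Ω E] [Field F] [Algebra Ω F]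
    {i : ℕ} (f : E →ₐ[Ω] F) (h : Uniruled Ω F i) : Uniruled Ω E i := by
  obtain ⟨N, hN, hN', g, S, θ, h1, h2⟩ := h
  exact ⟨N, hN, hN', g.comp f, S, θ, h1, fun k => h2 (f k)⟩

theorem alg_range {Ω K N : Type} [Field Ω] [Field K] [Algebra Ω K] [Field N] [Algebra Ω N]
    (g : K →ₐ[Ω] N) (v : N) :
    IsAlgebraic g.fieldRange v ↔ ∃ p : Polynomial K, p ≠ 0 ∧ p.eval₂ (g : K →+* N) v = 0 := by
  have hinj : Function.Injective g := (g : K →+* N).injective
  let e : K ≃ₐ[Ω] g.fieldRange := AlgEquiv.ofInjectiveField g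
  constructor
  · rintro ⟨p, hp0, hp⟩
    refine ⟨p.map (e.symm : g.fieldRange →+* K), ?_, ?_⟩
    · rw [Ne, Polynomial.map_eq_zero_iff e.symm.injective]
      exact hp0
    · rw [Polynomial.eval₂_map]
      have h1 : (g : K →+* N).comp (e.symm : g.fieldRange →+* K) = algebraMap g.fieldRange N := by
        ext a
        obtain ⟨k, rfl⟩ := e.surjective a
        change g (e.symm (e k)) = ((e k : g.fieldRange) : N)
        rw [AlgEquiv.symm_apply_apply]
        rfl
      rw [h1]
      exact hp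
  · rintro ⟨p, hp0, hp⟩
    refine ⟨p.map (e : K →+* g.fieldRange), ?_, ?_⟩
    · exact fun h => hp0 ((Polynomial.map_eq_zero_iff (f := (e : K →+* g.fieldRange)) e.injective).1 h)
    · rw [Polynomial.aeval_def, Polynomial.eval₂_map]
      exact hp

theorem tr_aux {M K N E : Type} [Field M] [Field K] [Field N] [Field E] [Algebra M K]
    [Algebra.IsAlgebraic M K] (g : M →+* N) (ι : N →+* E) (f : K →+* E)
    (hf : ∀ m, f (algebraMap M K m) = ι (g m)) (v : N)
    (h : ∃ p : Polynomial K, p ≠ 0 ∧ p.eval₂ f (ι v) = 0) :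
    ∃ q : Polynomial M, q ≠ 0 ∧ q.eval₂ g v = 0 := by
  obtain ⟨p, hp0, hp⟩ := h
  letI : Algebra K E := f.toAlgebra
  letI : Algebra M E := (ι.comp g).toAlgebra
  have : IsScalarTower M K E := IsScalarTower.of_algebraMap_eq fun m => (hf m).symm
  have h2 : IsAlgebraic K (ι v) := ⟨p, hp0, hp⟩
  have h3 : IsAlgebraic M (ι v) := h2.restrictScalars M
  obtain ⟨q, hq0, hq⟩ := h3
  refine ⟨q, hq0, ?_⟩
  apply ι.injective
  rw [Polynomial.aeval_def] at hq
  rw [map_zero, Polynomial.hom_eval₂]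
  exact hq

/-- The criterion for all extensions of `K` gives the criterion for all extensions of `M ⊆ K`, if
`K` is algebraic over `M`. -/
theorem uni_ext {Ω K : Type} [Field Ω] [Field K] [Algebra Ω K] (M : IntermediateField Ω K)
    (hM : ∀ k : K, IsAlgebraic M k) {n α β : ℕ} (x y z w : M)
    (h : ∀ (N : Type) [Field N] [Algebra Ω N] (g : K →ₐ[Ω] N) (v s : N),
      Transcendental g.fieldRange v → v ^ α * (1 - v) ^ β = (s * g w) ^ n →
      Uniruled Ω (adjoin Ω {g x, g y, g z, v, s} : IntermediateField Ω N) 3)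
    (N : Type) [Field N] [Algebra Ω N] (g : M →ₐ[Ω] N) (v s : N)
    (hv : Transcendental g.fieldRange v) (hs : v ^ α * (1 - v) ^ β = (s * g w) ^ n) :
    Uniruled Ω (adjoin Ω {g x, g y, g z, v, s} : IntermediateField Ω N) 3 := by
  let E := AlgebraicClosure N
  let ι : N →ₐ[Ω] E := IsScalarTower.toAlgHom Ω N E
  let g' : M →ₐ[Ω] E := ι.comp g
  letI : Algebra M E := g'.toRingHom.toAlgebra
  haveI : IsScalarTower Ω M E := IsScalarTower.of_algebraMap_eq fun c => (g'.commutes c).symm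
  haveI : Algebra.IsAlgebraic M K := ⟨hM⟩
  let f : K →ₐ[M] E := IsAlgClosed.lift
  let f' : K →ₐ[Ω] E := f.restrictScalars Ω
  have hf : ∀ m : M, f' m = ι (g m) := fun m => f.commutes m
  have h1 := h E f' (ι v) (ι s) (by
    -- transcendental
    intro halg
    apply hv
    rw [alg_range] at halg ⊢
    exact tr_aux (g : M →+* N) (ι : N →+* E) (f' : K →+* E) hf v halg) (by
    rw [← map_pow, ← map_one ι, ← map_sub, ← map_pow, ← map_mul, hs, map_pow, map_mul, hf])
  -- the embedding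
  have h2 : ∀ k : (adjoin Ω {g (x : M), g y, g z, v, s} : IntermediateField Ω N),
      ι (k : N) ∈ (adjoin Ω {f' x, f' y, f' z, ι v, ι s} : IntermediateField Ω E) := by
    intro k
    have h3 : (adjoin Ω {f' x, f' y, f' z, ι v, ι s} : IntermediateField Ω E) =
        (adjoin Ω {g x, g y, g z, v, s} : IntermediateField Ω N).map ι := by
      rw [adjoin_map]
      congr 1
      rw [Set.image_insert_eq, Set.image_insert_eq, Set.image_insert_eq, Set.image_pair, hf, hf,
        hf]
    rw [h3]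
    exact ⟨k, k.2, rfl⟩
  exact uniruled_of_hom ((ι.comp (adjoin Ω {g x, g y, g z, v, s} :
    IntermediateField Ω N).val).codRestrict
      (adjoin Ω {f' x, f' y, f' z, ι v, ι s} : IntermediateField Ω E).toSubalgebra h2) h1

end Pool.Agent.Helper48.H3
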