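import Pool.Agent.Helper48.H3.Fix3
import Pool.Agent.Helper48.HH.Join

/-! Project H3 (joins): the main theorem for an abelian group. -/

set_option autoImplicit false

namespace Pool.Agent.Helper48.H3

open IntermediateField TensorProduct Pool.Agent.Helper75.QC Pool.Agent.Helper75.WC
  Pool.Agent.Helper48.TT Pool.Agent.Helper48.HH

variable {Ω L G A K K' : Type} [Field Ω] [Field L] [CommGroup A] [Fintype A] [Field K]
  [Algebra Ω K] [Field K'] [Algebra Ω K']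

/-- The condition for one cyclic quotient `A / H`. -/
def PairRow3 (T : JoinTheory Ω L G) (ρ : A →* (K ≃ₐ[Ω] K)) (ρ' : A →* (K' ≃ₐ[Ω] K'))
    (H : Subgroup A) : Prop :=
  (∀ v : T.H 2 (fixed ρ H), v = 0) ∨ (∀ v : T.H 2 (fixed ρ' H), v = 0) ∨
    ∃ (σ : A) (n α β : ℕ) (ζ : Ω), 0 < n ∧ IsPrimitiveRoot ζ n ∧ (α.gcd β).Coprime n ∧ ¬ n ∣ α ∧
      ¬ n ∣ β ∧ ¬ n ∣ α + β ∧ RowP3 Ω (fixed ρ H) (res ρ H σ) n α β ζ ∧
      RowP3 Ω (fixed ρ' H) (res ρ' H σ) n α β ζ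

variable (ρ : A →* (K ≃ₐ[Ω] K)) (ρ' : A →* (K' ≃ₐ[Ω] K'))

/-- a power of an automorphism of the type `w ↦ ζ w` -/
theorem res_pow (H : Subgroup A) {σ : A} {x y z w : fixed ρ H} {ζ : Ω} (hx : res ρ H σ x = x)
    (hy : res ρ H σ y = y) (hz : res ρ H σ z = z)
    (hw : res ρ H σ w = algebraMap Ω _ ζ * w) (j : ℕ) :
    res ρ H (σ ^ j) x = x ∧ res ρ H (σ ^ j) y = y ∧ res ρ H (σ ^ j) z = z ∧
      res ρ H (σ ^ j) w = algebraMap Ω _ (ζ ^ j) * w := by
  have hmul : ∀ (a b : A) (k : fixed ρ H), res ρ H (a * b) k = res ρ H a (res ρ H b k) := by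
    intro a b k
    apply Subtype.ext
    rw [res_coe, res_coe, res_coe, map_mul, AlgEquiv.mul_apply]
  have hone : ∀ k : fixed ρ H, res ρ H 1 k = k := by
    intro k
    apply Subtype.ext
    rw [res_coe, map_one, AlgEquiv.one_apply]
  induction j with
  | zero => simp [hone]
  | succ j ih =>
    obtain ⟨i1, i2, i3, i4⟩ := ih
    refine ⟨?_, ?_, ?_, ?_⟩
    · rw [pow_succ', hmul, i1, hx]
    · rw [pow_succ', hmul, i2, hy]
    · rw [pow_succ', hmul, i3, hz]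
    · rw [pow_succ', hmul, i4, map_mul, hw, AlgHom.commutes, pow_succ, map_mul, mul_assoc]

/-- if `H` contains `σ ^ j` then `n` divides `j` -/
theorem dvd_of_mem (H : Subgroup A) {σ : A} {n α β : ℕ} {ζ : Ω} (hζ : IsPrimitiveRoot ζ n)
    (hrow : RowP3 Ω (fixed ρ H) (res ρ H σ) n α β ζ) {j : ℕ} (hj : σ ^ j ∈ H) : n ∣ j := by
  obtain ⟨x, y, z, w, -, -, hw0, -, hx, hy, hz, hw, -⟩ := hrow
  have h1 := (res_pow ρ H hx hy hz hw j).2.2.2
  have h2 : res ρ H (σ ^ j) w = w := Subtype.ext ((mem_fixed ρ).1 w.2 _ hj)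
  rw [h2] at h1
  have h3 : algebraMap Ω (fixed ρ H) (ζ ^ j) = 1 := by
    have h4 : (algebraMap Ω (fixed ρ H) (ζ ^ j) - 1) * w = 0 := by
      rw [sub_mul, ← h1, one_mul, sub_self]
    exact sub_eq_zero.1 ((mul_eq_zero.1 h4).resolve_right hw0)
  have h5 : ζ ^ j = 1 := (algebraMap Ω (fixed ρ H)).injective (h3.trans (map_one _).symm)
  exact hζ.dvd_of_pow_eq_one j h5

/-- `σ ^ n` acts trivially on the fixed field of `H` -/
theorem res_pow_eq (H : Subgroup A) {σ : A} {n α β : ℕ} {ζ : Ω} (hζ : IsPrimitiveRoot ζ n)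
    (hrow : RowP3 Ω (fixed ρ H) (res ρ H σ) n α β ζ) :
    res ρ H (σ ^ n) = AlgHom.id Ω (fixed ρ H) := by
  obtain ⟨x, y, z, w, -, hM, -, -, hx, hy, hz, hw, -⟩ := hrow
  obtain ⟨h1, h2, h3, h4⟩ := res_pow ρ H hx hy hz hw n
  rw [hζ.pow_eq_one, map_one, one_mul] at h4
  refine AlgHom.ext fun k => ?_
  refine fix_of (S := {x, y, z, w}) ?_ (by rw [hM]; trivial)
  rintro a (rfl | rfl | rfl | rfl)
  exacts [h1, h2, h3, h4]

/-- **One pair of isotypic components.** -/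
theorem component3 (T : JoinTheory Ω L G) (χ : A →* Lˣ)
    (hrow : PairRow3 T ρ ρ' χ.ker) (t : T.H 2 K ⊗[L] T.H 2 K') :
    TensorProduct.map (proj χ (rep ρ T.toBaseTheory 2)) (proj χ⁻¹ (rep ρ' T.toBaseTheory 2)) t ∈
        T.sup K K' ∧
      ((∀ γ, T.tate γ ^ 2 • TensorProduct.map (T.act 2 K γ) (T.act 2 K' γ) t = t) →
        TensorProduct.map (proj χ (rep ρ T.toBaseTheory 2))
          (proj χ⁻¹ (rep ρ' T.toBaseTheory 2)) t ∈ T.cycles K K') := by
  obtain ⟨H, hH⟩ : ∃ H, H = χ.ker := ⟨_, rfl⟩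
  rw [← hH] at hrow
  have hmem : ∀ a, a ∈ H ↔ χ a = 1 := by
    intro a
    rw [hH]
    exact Iff.rfl
  have hinj := T.inj 2 (fixed ρ H).val (fixed_algebraic ρ H)
  have hinj' := T.inj 2 (fixed ρ' H).val (fixed_algebraic ρ' H)
  have hmap : ∀ a v, T.map 2 (ρ a : K →ₐ[Ω] K) (proj χ (rep ρ T.toBaseTheory 2) v) =
      ((χ a : Lˣ) : L) • proj χ (rep ρ T.toBaseTheory 2) v := fun a v =>
    proj_map χ (rep ρ T.toBaseTheory 2) a v
  have hmap' : ∀ a v, T.map 2 (ρ' a : K' →ₐ[Ω] K') (proj χ⁻¹ (rep ρ' T.toBaseTheory 2) v) =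
      (((χ⁻¹ : A →* Lˣ) a : Lˣ) : L) • proj χ⁻¹ (rep ρ' T.toBaseTheory 2) v := fun a v =>
    proj_map χ⁻¹ (rep ρ' T.toBaseTheory 2) a v
  obtain ⟨s, hs⟩ := exists_lift_of_range (T.map 2 (fixed ρ H).val) hinj
    (proj χ (rep ρ T.toBaseTheory 2)) (fun v => descent_fixed ρ T.toBaseTheory H 2 _ (fun a ha => by
      rw [hmap, (hmem a).1 ha, Units.val_one, one_smul]))
  obtain ⟨s', hs'⟩ := exists_lift_of_range (T.map 2 (fixed ρ' H).val) hinj'
    (proj χ⁻¹ (rep ρ' T.toBaseTheory 2)) (fun v =>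
      descent_fixed ρ' T.toBaseTheory H 2 _ (fun a ha => by
      rw [hmap', MonoidHom.inv_apply, (hmem a).1 ha, inv_one, Units.val_one, one_smul]))
  -- the components come from the fixed fields
  have hcomp : ∀ u : T.H 2 K ⊗[L] T.H 2 K',
      TensorProduct.map (proj χ (rep ρ T.toBaseTheory 2)) (proj χ⁻¹ (rep ρ' T.toBaseTheory 2)) u =
        TensorProduct.map (T.map 2 (fixed ρ H).val) (T.map 2 (fixed ρ' H).val)
          (TensorProduct.map s s' u) := by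
    intro u
    induction u using TensorProduct.induction_on with
    | zero => simp
    | add u u' hu hu' => simp only [map_add, hu, hu']
    | tmul p q => rw [map_tmul, map_tmul, map_tmul, hs, hs']
  rw [hcomp, (T.transfer _ _ (fixed_algebraic ρ H) (fixed_algebraic ρ' H) _).1,
    (T.transfer _ _ (fixed_algebraic ρ H) (fixed_algebraic ρ' H) _).2]
  -- the cases
  have hzero : s = 0 ∨ s' = 0 → TensorProduct.map s s' t ∈ T.sup (fixed ρ H) (fixed ρ' H) ∧
      ((∀ γ, T.tate γ ^ 2 • TensorProduct.map (T.act 2 K γ) (T.act 2 K' γ) t = t) →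
        TensorProduct.map s s' t ∈ T.cycles (fixed ρ H) (fixed ρ' H)) := by
    rintro (h0 | h0)
    · rw [h0, map_zero_left, LinearMap.zero_apply]
      exact ⟨Submodule.zero_mem _, fun _ => Submodule.zero_mem _⟩
    · rw [h0, map_zero_right, LinearMap.zero_apply]
      exact ⟨Submodule.zero_mem _, fun _ => Submodule.zero_mem _⟩
  rcases hrow with hU | hU | ⟨σ, n, α, β, ζ, hn, hζ, hab, hα, hβ, hαβ, hr, hr'⟩
  · exact hzero (Or.inl (LinearMap.ext fun t => hU (s t)))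
  · exact hzero (Or.inr (LinearMap.ext fun t => hU (s' t)))
  have hres : ∀ a v, T.map 2 (res ρ H a) (s v) = ((χ a : Lˣ) : L) • s v := by
    intro a v
    apply hinj
    have e1 : T.map 2 (fixed ρ H).val (T.map 2 (res ρ H a) (s v)) =
        T.map 2 ((fixed ρ H).val.comp (res ρ H a)) (s v) :=
      (LinearMap.congr_fun (T.map_comp 2 (res ρ H a) (fixed ρ H).val) (s v)).symm
    have e2 : T.map 2 ((ρ a : K →ₐ[Ω] K).comp (fixed ρ H).val) (s v) =
        T.map 2 (ρ a : K →ₐ[Ω] K) (T.map 2 (fixed ρ H).val (s v)) :=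
      LinearMap.congr_fun (T.map_comp 2 (fixed ρ H).val (ρ a : K →ₐ[Ω] K)) (s v)
    rw [e1, val_res, e2, hs, map_smul, hs, hmap]
  have hres' : ∀ a v, T.map 2 (res ρ' H a) (s' v) = ((χ a : Lˣ) : L)⁻¹ • s' v := by
    intro a v
    apply hinj'
    have e1 : T.map 2 (fixed ρ' H).val (T.map 2 (res ρ' H a) (s' v)) =
        T.map 2 ((fixed ρ' H).val.comp (res ρ' H a)) (s' v) :=
      (LinearMap.congr_fun (T.map_comp 2 (res ρ' H a) (fixed ρ' H).val) (s' v)).symm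
    have e2 : T.map 2 ((ρ' a : K' →ₐ[Ω] K').comp (fixed ρ' H).val) (s' v) =
        T.map 2 (ρ' a : K' →ₐ[Ω] K') (T.map 2 (fixed ρ' H).val (s' v)) :=
      LinearMap.congr_fun (T.map_comp 2 (fixed ρ' H).val (ρ' a : K' →ₐ[Ω] K')) (s' v)
    rw [e1, val_res, e2, hs', map_smul, hs', hmap', MonoidHom.inv_apply, Units.val_inv_eq_inv_val]
  by_cases hξn : ((χ σ : Lˣ) : L) ^ n = 1
  · have hpow : ∀ j : ℕ, ¬ n ∣ j → ((χ σ : Lˣ) : L) ^ j ≠ 1 := by
      intro j hj h1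
      apply hj
      refine dvd_of_mem ρ H hζ hr ?_
      rw [hmem, map_pow]
      apply Units.ext
      rw [Units.val_pow_eq_pow_val, h1, Units.val_one]
    have : NeZero n := ⟨hn.ne'⟩
    have hn' : (n : Ω) ≠ 0 := (hζ.neZero').out
    refine pairP3 T hr hr' hn hn' hζ hab hξn (hpow _ hα) (hpow _ hβ) (hpow _ hαβ) s
      (fun γ v => ?_) (fun v => hres σ v) s' (fun γ v => ?_) (fun v => hres' σ v) t
    · apply hinj
      rw [T.map_act, hs, hs]
      exact proj_comm χ _ _ (T.act 2 K γ) (fun a u => (T.map_act 2 (ρ a : K →ₐ[Ω] K) γ u).symm) v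
    · apply hinj'
      rw [T.map_act, hs', hs']
      exact proj_comm χ⁻¹ _ _ (T.act 2 K' γ)
        (fun a u => (T.map_act 2 (ρ' a : K' →ₐ[Ω] K') γ u).symm) v
  · -- the component is zero
    refine hzero (Or.inl (LinearMap.ext fun v => ?_))
    have h1 := hres (σ ^ n) v
    rw [res_pow_eq ρ H hζ hr, T.map_id, LinearMap.id_apply, map_pow, Units.val_pow_eq_pow_val] at h1
    have h2 : (((χ σ : Lˣ) : L) ^ n - 1) • s v = 0 := by
      rw [sub_smul, ← h1, one_smul, sub_self]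
    rw [LinearMap.zero_apply]
    exact (smul_eq_zero.1 h2).resolve_left (sub_ne_zero.2 hξn)

/-- **The main theorem.** -/
theorem main3 [CharZero L] [IsAlgClosed L] (T : JoinTheory Ω L G)
    (h : ∀ H : Subgroup A, IsCyclic (A ⧸ H) → PairRow3 T ρ ρ' H)
    (t : T.H 2 K ⊗[L] T.H 2 K')
    (ht : ∀ a, TensorProduct.map (T.map 2 (ρ a : K →ₐ[Ω] K)) (T.map 2 (ρ' a : K' →ₐ[Ω] K')) t = t) :
    T.Good t := by
  classical
  have : Finite (A →* Lˣ) := (finite_char L A).1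
  have : Fintype (A →* Lˣ) := Fintype.ofFinite _
  have hcyc : ∀ χ : A →* Lˣ, IsCyclic (A ⧸ χ.ker) := by
    intro χ
    have h1 : IsCyclic χ.range := inferInstance
    exact (QuotientGroup.quotientKerEquivRange χ).isCyclic.2 h1
  have hsum := tensor_sum3 (rep ρ T.toBaseTheory 2) (rep ρ' T.toBaseTheory 2) t ht
  refine ⟨?_, fun htate => ?_⟩
  · rw [← hsum]
    exact Submodule.sum_mem _ fun χ _ => (component3 ρ ρ' T χ (h _ (hcyc χ)) t).1
  · rw [← hsum]
    exact Submodule.sum_mem _ fun χ _ => (component3 ρ ρ' T χ (h _ (hcyc χ)) t).2 htate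

end Pool.Agent.Helper48.H3
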