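import Pool.Agent.Helper48.H3.Top3

/-! Project H3 (joins): the fixed fields for a cyclic group which acts by `w ↦ ζ w`. -/

set_option autoImplicit false

namespace Pool.Agent.Helper48.H3

open IntermediateField MvPolynomial Pool.Agent.Helper75.QC Pool.Agent.Helper75.WC
  Pool.Agent.Helper48.HH

section

variable {Ω A K : Type} [Field Ω] [CommGroup A] [Fintype A] [Field K] [Algebra Ω K]
  (ρ : A →* (K ≃ₐ[Ω] K))

theorem root_cover {n : ℕ} {ζ : Ω} (hn : 0 < n) (hζ : IsPrimitiveRoot ζ n) (g : A)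
    (hg : ∀ a, ∃ j : ℕ, g ^ j = a) {H : Subgroup A} {m k : ℕ} (hmk : n = m * k)
    (hH : ∀ j : ℕ, g ^ j ∈ H ↔ k ∣ j) {x y w : K} (hK : adjoin Ω {x, y, w} = ⊤) (hw : w ≠ 0)
    (hx : ρ g x = x) (hy : ρ g y = y) (hσ : ρ g w = algebraMap Ω K ζ * w) :
    Cover ρ H g (ζ ^ m) {x, y} (w ^ m) := by
  have hm : 0 < m := Nat.pos_of_ne_zero (by
    rintro rfl
    omega)
  have hpow : ∀ j : ℕ, ρ (g ^ j) x = x ∧ ρ (g ^ j) y = y ∧
      ρ (g ^ j) w = algebraMap Ω K (ζ ^ j) * w := by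
    intro j
    induction j with
    | zero => simp
    | succ j ih =>
      obtain ⟨i1, i2, i3⟩ := ih
      refine ⟨?_, ?_, ?_⟩
      · rw [pow_succ', map_mul, AlgEquiv.mul_apply, i1, hx]
      · rw [pow_succ', map_mul, AlgEquiv.mul_apply, i2, hy]
      · rw [pow_succ', map_mul, AlgEquiv.mul_apply, i3, map_mul, AlgEquiv.commutes, hσ, ← mul_assoc,
          ← map_mul, ← pow_succ]
  refine ⟨?_, ?_, ?_⟩
  · have e1 : ({x, y} ∪ {w ^ m} : Set K) = {x, y, w ^ m} := by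
      ext k
      simp only [Set.mem_union, Set.mem_insert_iff, Set.mem_singleton_iff]
      tauto
    rw [e1]
    change adjoin Ω {x, y, w ^ m} = fixed ρ H
    have hle : adjoin Ω {x, y, w ^ m} ≤ fixed ρ H := by
      rw [adjoin_le_iff]
      have key : ∀ s ∈ ({x, y, w ^ m} : Set K), ∀ a ∈ H, ρ a s = s := by
        intro s hs a ha
        obtain ⟨j, rfl⟩ := hg a
        obtain ⟨i, rfl⟩ := (hH j).1 ha
        obtain ⟨i1, i2, i3⟩ := hpow (k * i)
        rcases hs with rfl | rfl | rfl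
        · exact i1
        · exact i2
        · rw [map_pow, i3, mul_pow, ← map_pow, ← pow_mul]
          have e2 : k * i * m = n * i := by
            rw [hmk]
            ring
          rw [e2, pow_mul, hζ.pow_eq_one, one_pow, map_one, one_mul]
      exact fun s hs => (mem_fixed ρ).2 (key s hs)
    have htop : adjoin (adjoin Ω {x, y, w ^ m} : IntermediateField Ω K) {w} = ⊤ := by
      refine top_of_gen _ ?_ hK
      rintro k (rfl | rfl | rfl)
      · exact Or.inl (subset_adjoin _ _ (by simp))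
      · exact Or.inl (subset_adjoin _ _ (by simp))
      · exact Or.inr rfl
    obtain ⟨h1, h2⟩ := finrank_le_of_pow hm ⟨⟨w ^ m, subset_adjoin _ _ (by simp)⟩, rfl⟩ htop
    refine eq_of_le_of_finrank_le' hle (h2.trans ?_)
    have : Finite (H.map ρ) := finite_map ρ H
    have h0 : FiniteDimensional (fixed ρ H) K := (galois_fixed (H.map ρ)).1
    let τ : K →ₐ[fixed ρ H] K :=
      { toRingHom := ((ρ (g ^ k) : K →ₐ[Ω] K) : K →+* K)
        commutes' := fun b => (mem_fixed ρ).1 b.2 _ ((hH k).2 dvd_rfl) }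
    have hζk : IsPrimitiveRoot (ζ ^ k) m := hζ.pow hn (by rw [hmk, mul_comm])
    have hτ : ∀ j : ℕ, (τ ^ j) w = algebraMap Ω K ((ζ ^ k) ^ j) * w := by
      intro j
      have h4 : τ w = algebraMap Ω K (ζ ^ k) * w := (hpow k).2.2
      induction j with
      | zero => simp
      | succ j ih =>
        rw [pow_succ', AlgHom.mul_apply, ih, map_mul]
        have h5 : τ (algebraMap Ω K ((ζ ^ k) ^ j)) = algebraMap Ω K ((ζ ^ k) ^ j) :=
          (ρ (g ^ k)).commutes _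
        rw [h5, h4, ← mul_assoc, ← map_mul, ← pow_succ]
    refine le_finrank τ m fun i hi j hj h4 => inj_of_prim hw hζk hi hj ?_
    rw [← hτ, ← hτ, h4]
  · rintro s (rfl | rfl)
    exacts [hx, hy]
  · rw [map_pow, hσ, mul_pow, map_pow]

/-- the order of the quotient -/
theorem exists_index {n : ℕ} (g : A) (hgn : g ^ n = 1) (H : Subgroup A) :
    ∃ m k : ℕ, n = m * k ∧ ∀ j : ℕ, g ^ j ∈ H ↔ k ∣ j := by
  have h1 : ∀ j : ℕ, g ^ j ∈ H ↔ orderOf (g : A ⧸ H) ∣ j := by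
    intro j
    rw [orderOf_dvd_iff_pow_eq_one, ← QuotientGroup.mk_pow, QuotientGroup.eq_one_iff]
  obtain ⟨m, hm⟩ := (h1 n).1 (by rw [hgn]; exact H.one_mem)
  exact ⟨m, orderOf (g : A ⧸ H), by rw [hm, mul_comm], h1⟩

end

section

variable {Ω A K K' : Type} [Field Ω] [IsAlgClosed Ω] [CommGroup A] [Fintype A] [Field K]
  [Algebra Ω K] [Field K'] [Algebra Ω K'] (ρ : A →* (K ≃ₐ[Ω] K)) (ρ' : A →* (K' ≃ₐ[Ω] K'))

/-- the alternatives for a pair, in terms of `K`, `K'` -/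
def PairK (H : Subgroup A) (σ : A) (n : ℕ) : Prop :=
  Uniruled Ω (fixedField (H.map ρ)) 2 ∨ Uniruled Ω (fixedField (H.map ρ')) 2 ∨
    ∃ (a b : ℕ) (ζ : Ω), IsPrimitiveRoot ζ n ∧ (a.gcd b).Coprime n ∧ ¬ n ∣ a ∧ ¬ n ∣ b ∧
      ¬ n ∣ a + b ∧ Twist ρ H σ n a b ζ ∧ Twist ρ' H σ n a b ζ

theorem PairK.of_pair3 {H : Subgroup A} {σ : A} {n : ℕ}
    (h : Pair3 Ω n (res ρ H σ) (res ρ' H σ)) : PairK ρ ρ' H σ n := by
  rcases h with h | h | ⟨a, b, ζ, h1, h2, h3, h4, h5, h6, h7⟩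
  · exact Or.inl h
  · exact Or.inr (Or.inl h)
  · exact Or.inr (Or.inr ⟨a, b, ζ, h1, h2, h3, h4, h5, Twist.of_row ρ H h6, Twist.of_row ρ' H h7⟩)

theorem PairK.row {L G : Type} [Field L] (T : JoinTheory Ω L G) {H : Subgroup A} {σ : A} {n : ℕ}
    (hn : 0 < n) (h : PairK ρ ρ' H σ n) : PairRow3 T ρ ρ' H := by
  rcases h with h | h | ⟨a, b, ζ, h1, h2, h3, h4, h5, h6, h7⟩
  · exact Or.inl (T.uniruled 2 _ h)
  · exact Or.inr (Or.inl (T.uniruled 2 _ h))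
  · exact Or.inr (Or.inr ⟨σ, n, a, b, ζ, hn, h1, h2, h3, h4, h5, Twist.row ρ H h6,
      Twist.row ρ' H h7⟩)

variable {n : ℕ} {ζ : Ω} {H : Subgroup A} {σ : A} {x y w : K} {x' y' w' : K'}

theorem val_aeval {K : Type} [Field K] [Algebra Ω K] {E : IntermediateField Ω K} (x y : E)
    (p : MvPolynomial (Fin 2) Ω) :
    ((aeval ![x, y] p : E) : K) = aeval ![(x : K), (y : K)] p :=
  Pool.Agent.Helper75.QC.map_aeval75 E.val x y p

theorem pairK_curves (hn : 0 < n) (hζ : IsPrimitiveRoot ζ n) (hc : Cover ρ H σ ζ {x, y} w)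
    (hc' : Cover ρ' H σ ζ {x', y'} w') (h : IsCurves Ω n x y w x' y' w') :
    PairK ρ ρ' H σ n := by
  obtain ⟨x₁, y₁, w₁, rfl, rfl, rfl, h1, h2, h3, h4⟩ := hc.exists_top
  obtain ⟨x₁', y₁', w₁', rfl, rfl, rfl, h1', h2', h3', h4'⟩ := hc'.exists_top
  refine PairK.of_pair3 ρ ρ' (pair_curves hn hζ h1 h2 h3 h4 h1' h2' h3' h4' ?_)
  obtain ⟨r, d, e, f, g, hf, hg, hdvd, hcc, heq, heq'⟩ := h
  exact ⟨r, d, e, f, g, hf, hg, hdvd, hcc,
    desc_curve (mul_one n).symm (fixed ρ H).val rfl rfl (by rw [pow_one]; rfl) e f heq,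
    desc_curve (mul_one n).symm (fixed ρ' H).val rfl rfl (by rw [pow_one]; rfl) e g heq'⟩

theorem pairK_tris (hn : 0 < n) (hζ : IsPrimitiveRoot ζ n) (hc : Cover ρ H σ ζ {x, y} w)
    (hc' : Cover ρ' H σ ζ {x', y'} w') {s t : ℕ} (h : IsTri Ω s t n x y w)
    (h' : IsTri Ω s t n x' y' w') : PairK ρ ρ' H σ n := by
  obtain ⟨x₁, y₁, w₁, rfl, rfl, rfl, h1, h2, h3, h4⟩ := hc.exists_top
  obtain ⟨x₁', y₁', w₁', rfl, rfl, rfl, h1', h2', h3', h4'⟩ := hc'.exists_top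
  exact PairK.of_pair3 ρ ρ' (pair_tris hn hζ h1 h2 h3 h4 h1' h2' h3' h4'
    (desc_tri (mul_one n).symm (fixed ρ H).val rfl rfl (by rw [pow_one]; rfl) h)
    (desc_tri (mul_one n).symm (fixed ρ' H).val rfl rfl (by rw [pow_one]; rfl) h'))

theorem IsPull.desc {K : Type} [Field K] [Algebra Ω K] {E : IntermediateField Ω K} {x y t : E}
    (h : IsPull Ω (x : K) (y : K) (t : K)) : IsPull Ω x y t := by
  obtain ⟨a, b, c, F, h1, h2, h3, h4⟩ := h
  refine ⟨a, b, c, F, h1, h2, h3, ?_⟩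
  apply Subtype.ext
  have h5 : aeval (E.val ∘ ![x, y, t]) F = E.val (aeval ![x, y, t] F) := by
    rw [← AlgHom.comp_apply, comp_aeval]
    rfl
  have h6 : E.val ∘ ![x, y, t] = ![(x : K), (y : K), (t : K)] := by
    funext i
    fin_cases i <;> rfl
  rw [h6, h4] at h5
  exact h5.symm

theorem pairK_pull (hn : 0 < n) (hζ : IsPrimitiveRoot ζ n) (hc : Cover ρ H σ ζ {x, y} w)
    (hc' : Cover ρ' H σ ζ {x', y'} w') (h : IsPull Ω x y (w ^ n))
    (h' : IsPull Ω x' y' (w' ^ n)) : PairK ρ ρ' H σ n := by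
  obtain ⟨x₁, y₁, w₁, rfl, rfl, rfl, h1, h2, h3, h4⟩ := hc.exists_top
  obtain ⟨x₁', y₁', w₁', rfl, rfl, rfl, h1', h2', h3', h4'⟩ := hc'.exists_top
  exact PairK.of_pair3 ρ ρ' (pair_pull hn hζ h1 h2 h3 h4 h1' h2' h3' h4'
    (IsPull.desc (t := w₁ ^ n) h) (IsPull.desc (t := w₁' ^ n) h'))

end

end Pool.Agent.Helper48.H3
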