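import Pool.Agent.Helper48.HH.Core
import Pool.Agent.Helper35.V7.Row3

/-! Project H3 (joins over any base): the criterion over `Ω(x, y, z)`, and one pair of sides. -/

set_option autoImplicit false

namespace Pool.Agent.Helper48.H3

open IntermediateField TensorProduct Pool.Agent.Helper75.QC Pool.Agent.Helper75.WC
  Pool.Agent.Helper15.WC Pool.Agent.Helper48.TT Pool.Agent.Helper48.HH Pool.Agent.Helper35.V7

/-- `M = Ω(x, y, z, w)`, `z` is algebraic over `Ω(x, y)`, `σ` is the automorphism `w ↦ ζ w` over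
`Ω(x, y, z)`, `w ^ n ∈ Ω(x, y, z)`, and the threefold `v ^ α (1 - v) ^ β = s ^ n w ^ n` is
uniruled. -/
def RowP3 (Ω M : Type) [Field Ω] [Field M] [Algebra Ω M] (σ : M →ₐ[Ω] M) (n α β : ℕ) (ζ : Ω) :
    Prop :=
  ∃ x y z w : M, z ∈ Acl Ω {x, y} ∧ adjoin Ω {x, y, z, w} = ⊤ ∧ w ≠ 0 ∧
    w ^ n ∈ adjoin Ω {x, y, z} ∧ σ x = x ∧ σ y = y ∧ σ z = z ∧ σ w = algebraMap Ω M ζ * w ∧
    ∀ (N : Type) [Field N] [Algebra Ω N] (g : M →ₐ[Ω] N) (v s : N),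
      Transcendental g.fieldRange v → v ^ α * (1 - v) ^ β = s ^ n * g w ^ n →
      Uniruled Ω (adjoin Ω {g x, g y, g z, v, s} : IntermediateField Ω N) 3

/-- elements fixed by `σ` -/
theorem fix_of {Ω M : Type} [Field Ω] [Field M] [Algebra Ω M] {σ : M →ₐ[Ω] M} {S : Set M}
    (hS : ∀ k ∈ S, σ k = k) {k : M} (hk : k ∈ adjoin Ω S) : σ k = k := by
  let A : IntermediateField Ω M :=
    { AlgHom.equalizer σ (AlgHom.id Ω M) with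
      inv_mem' := fun k hk => by
        change σ k = k at hk
        change σ k⁻¹ = k⁻¹
        rw [map_inv₀, hk] }
  have h1 : adjoin Ω S ≤ A := by
    rw [adjoin_le_iff]
    exact fun k hk => hS k hk
  exact h1 hk

variable {Ω L G : Type} [Field Ω] [Field L] (T : JoinTheory Ω L G)

/-- **One side.** -/
theorem exists_sideP3 {M : Type} [Field M] [Algebra Ω M] {σ : M →ₐ[Ω] M} {n α β : ℕ} {ζ : Ω}
    (hrow : RowP3 Ω M σ n α β ζ) (hn : 0 < n) (hn' : (n : Ω) ≠ 0) (hζ : IsPrimitiveRoot ζ n)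
    (hab : (α.gcd β).Coprime n) {ξ : L} (hξn : ξ ^ n = 1) (hα : ξ ^ α ≠ 1) (hβ : ξ ^ β ≠ 1)
    (hαβ : ξ ^ (α + β) ≠ 1) {K₁ : Type} [Field K₁] [Algebra Ω K₁] (s : T.H 2 K₁ →ₗ[L] T.H 2 M)
    (hs : ∀ γ t, T.act 2 M γ (s t) = s (T.act 2 K₁ γ t))
    (hσs : ∀ t, T.map 2 σ (s t) = ξ • s t) :
    ∃ (C D : Type) (_ : Field C) (_ : Algebra Ω C) (_ : Field D) (_ : Algebra Ω D)
      (z : T.H 1 C) (κ : G → L) (g : T.H 1 D →ₗ[L] T.H 2 M ⊗[L] T.H 1 C)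
      (d : T.H 2 K₁ →ₗ[L] T.H 1 D) (φ : T.H 1 C →ₗ[L] L),
      IsVec T.toBaseTheory n α β ζ ξ⁻¹ C (T.act 1 C) z κ ∧ IsSide T s κ C D z g d φ := by
  classical
  obtain ⟨x, y, z₀, w, hz₀, hM, hw0, hwm, hx, hy, hz, hσw, huni⟩ := hrow
  have hfg : (⊤ : IntermediateField Ω M).FG := by
    rw [← hM]
    exact fg_adjoin_of_finite (Set.toFinite _)
  have hxy : ∀ k : M, k ∈ Acl Ω {x, y} := alg3 hn hz₀ hM hwm
  have hM' : adjoin Ω ((adjoin Ω {x, y, z₀} : Set M) ∪ {w}) = ⊤ := by rw [← gen3 x y z₀ w, hM]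
  have hσ : (∀ k ∈ adjoin Ω {x, y, z₀}, σ k = k) ∧ σ w = algebraMap Ω M ζ * w :=
    ⟨fun k hk => fix_of (by
      rintro a (rfl | rfl | rfl)
      exacts [hx, hy, hz]) hk, hσw⟩
  have hξ0 : ξ ≠ 0 := by
    rintro rfl
    rw [zero_pow hn.ne'] at hξn
    exact zero_ne_one hξn
  have hinv : ∀ j : ℕ, ξ ^ j ≠ 1 → ξ⁻¹ ^ j ≠ 1 := by
    intro j hj h
    apply hj
    rwa [inv_pow, inv_eq_one] at h
  obtain ⟨C, N, iC, jC, iN, jN, v, u, a, b, hv, hu, hC, hbv, hNg, hsig, -, -⟩ :=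
    Pool.Agent.Helper35.TD.exists_curve_ab (Ω := Ω) (α := α) (β := β) hn hab M
  obtain ⟨τ, hτ⟩ := hsig ζ hζ.pow_eq_one
  have hfinC : (⊤ : IntermediateField Ω C).FG := by
    rw [← hC]
    exact fg_adjoin_of_finite (Set.toFinite _)
  obtain ⟨z, hz0, hz⟩ := T.curve C n α β ζ v u τ hn' hζ hv hu hC hτ.1 hτ.2 ξ⁻¹
    (by rw [inv_pow, hξn, inv_one]) (hinv _ hα) (hinv _ hβ) (hinv _ hαβ)
  -- the character
  have hchar : ∀ γ, ∃ e : L, T.act 1 C γ z = e • z := fun γ =>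
    T.simple C n α β ζ v u τ hn' hζ hv hu hC hτ.1 hτ.2 ξ⁻¹ z (T.act 1 C γ z) hz0 hz (by
      rw [T.map_act, hz, map_smul])
  choose e he using hchar
  have huni' : ∀ z : T.H 3 (adjoin Ω (a '' (adjoin Ω {x, y, z₀} : Set M) ∪ {b v, b u / a w}) :
      IntermediateField Ω N), z = 0 := by
    apply T.uniruled
    rw [img3]
    refine huni N a (b v) (b u / a w) hbv ?_
    have h2 : b u ^ n = b v ^ α * (1 - b v) ^ β := by
      rw [← map_pow, hu, map_mul, map_pow, map_pow, map_sub, map_one]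
    have h3 : a w ≠ 0 := fun h => hw0 (a.injective (h.trans (map_zero a).symm))
    rw [div_pow, h2, div_mul_cancel₀ _ (pow_ne_zero _ h3)]
  obtain ⟨D, iD, jD, g, d, φ, -, h2, h3, h4, h5, h6⟩ := side T a b x y v hfg hfinC hxy
    (mem_Acl_of hn v u hu hC) hbv s hs z hz0 e he (fun t =>
      Pool.Agent.Helper15.QM.Gen.cross_zero T.toBaseTheory hn hn' hζ a b
        (adjoin Ω {x, y, z₀}) w v u hM' hC hNg hw0 hwm σ hσ τ hτ huni' ξ hξ0 (s t) (hσs t) z hz)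
  exact ⟨C, D, iC, jC, iD, jD, z, e, g, d, φ, ⟨v, u, τ, hn', hζ, hv, hu, hC,
    hτ.1, hτ.2, by rw [inv_pow, hξn, inv_one], hz0, hz, he⟩, ⟨h2, h3, h4, h5, h6⟩⟩

/-- **Two sides of the same type.** -/
theorem pairP3 {M M' : Type} [Field M] [Algebra Ω M] [Field M'] [Algebra Ω M'] {σ : M →ₐ[Ω] M}
    {σ' : M' →ₐ[Ω] M'} {n α β : ℕ} {ζ : Ω} (hrow : RowP3 Ω M σ n α β ζ)
    (hrow' : RowP3 Ω M' σ' n α β ζ) (hn : 0 < n) (hn' : (n : Ω) ≠ 0) (hζ : IsPrimitiveRoot ζ n)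
    (hab : (α.gcd β).Coprime n) {ξ : L} (hξn : ξ ^ n = 1) (hα : ξ ^ α ≠ 1) (hβ : ξ ^ β ≠ 1)
    (hαβ : ξ ^ (α + β) ≠ 1) {K₁ K₁' : Type} [Field K₁] [Algebra Ω K₁] [Field K₁'] [Algebra Ω K₁']
    (s : T.H 2 K₁ →ₗ[L] T.H 2 M) (hs : ∀ γ t, T.act 2 M γ (s t) = s (T.act 2 K₁ γ t))
    (hσs : ∀ t, T.map 2 σ (s t) = ξ • s t)
    (s' : T.H 2 K₁' →ₗ[L] T.H 2 M') (hs' : ∀ γ t, T.act 2 M' γ (s' t) = s' (T.act 2 K₁' γ t))
    (hσs' : ∀ t, T.map 2 σ' (s' t) = ξ⁻¹ • s' t) (t : T.H 2 K₁ ⊗[L] T.H 2 K₁') :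
    TensorProduct.map s s' t ∈ T.sup M M' ∧
      ((∀ γ, T.tate γ ^ 2 • TensorProduct.map (T.act 2 K₁ γ) (T.act 2 K₁' γ) t = t) →
        TensorProduct.map s s' t ∈ T.cycles M M') := by
  have hinv : ∀ j : ℕ, ξ ^ j ≠ 1 → ξ⁻¹ ^ j ≠ 1 := by
    intro j hj h
    apply hj
    rwa [inv_pow, inv_eq_one] at h
  obtain ⟨C, D, _, _, _, _, z, κ, g, d, φ, hv, hside⟩ := exists_sideP3 T hrow hn hn' hζ
    hab hξn hα hβ hαβ s hs hσs
  obtain ⟨C', D', _, _, _, _, z', κ', g', d', φ', hv', hside'⟩ := exists_sideP3 T hrow'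
    hn hn' hζ hab (ξ := ξ⁻¹) (by rw [inv_pow, hξn, inv_one]) (hinv _ hα) (hinv _ hβ) (hinv _ hαβ)
    s' hs' hσs'
  rw [inv_inv] at hv'
  exact coreP T hside hside' (T.dual n α β ζ ξ C z κ C' z' κ' hv hv') t

end Pool.Agent.Helper48.H3
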