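import Pool.Agent.Helper48.H3.Ex3

/-! Project H3 (joins): from the fixed fields to `K`. -/

set_option autoImplicit false

namespace Pool.Agent.Helper48.H3

open IntermediateField MvPolynomial Pool.Agent.Helper75.QC Pool.Agent.Helper75.WC
  Pool.Agent.Helper48.HH

section

variable {Ω A K : Type} [Field Ω] [CommGroup A] [Fintype A] [Field K] [Algebra Ω K]
  (ρ : A →* (K ≃ₐ[Ω] K)) (H : Subgroup A)

/-- `K ^ H = Ω(S, w)`, and `σ` is the automorphism `w ↦ ζ w` over `Ω(S)` -/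
def Cover (σ : A) (ζ : Ω) (S : Set K) (w : K) : Prop :=
  adjoin Ω (S ∪ {w}) = fixedField (H.map ρ) ∧ (∀ k ∈ S, ρ σ k = k) ∧
    ρ σ w = algebraMap Ω K ζ * w

theorem Cover.exists_top {σ : A} {ζ : Ω} {x y w : K} (h : Cover ρ H σ ζ {x, y} w) :
    ∃ x₁ y₁ w₁ : fixed ρ H, (x₁ : K) = x ∧ (y₁ : K) = y ∧ (w₁ : K) = w ∧
      adjoin Ω {x₁, y₁, w₁} = ⊤ ∧ res ρ H σ x₁ = x₁ ∧ res ρ H σ y₁ = y₁ ∧
      res ρ H σ w₁ = algebraMap Ω _ ζ * w₁ := by
  obtain ⟨h1, h2, h3⟩ := h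
  have e1 : ({x, y} ∪ {w} : Set K) = {x, y, w} := by
    ext k
    simp only [Set.mem_union, Set.mem_insert_iff, Set.mem_singleton_iff]
    tauto
  rw [e1] at h1
  have hmem : ∀ k ∈ ({x, y, w} : Set K), k ∈ fixed ρ H := fun k hk => by
    have h4 : k ∈ adjoin Ω {x, y, w} := subset_adjoin _ _ hk
    rw [h1] at h4
    exact h4
  refine ⟨⟨x, hmem x (by simp)⟩, ⟨y, hmem y (by simp)⟩, ⟨w, hmem w (by simp)⟩, rfl, rfl, rfl, ?_,
    Subtype.ext (h2 x (by simp)), Subtype.ext (h2 y (by simp)), Subtype.ext h3⟩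
  apply lift_injective (fixed ρ H)
  rw [lift_top, lift_adjoin, Set.image_insert_eq, Set.image_pair]
  exact h1

/-- The criterion. -/
def Twist (σ : A) (n a b : ℕ) (ζ : Ω) : Prop :=
  ∃ x y z w : K, Cover ρ H σ ζ {x, y, z} w ∧ w ≠ 0 ∧ IsAlgebraic (adjoin Ω {x, y}) z ∧
    w ^ n ∈ adjoin Ω {x, y, z} ∧
    ∀ (N : Type) [Field N] [Algebra Ω N] (g : K →ₐ[Ω] N) (v s : N),
      Transcendental g.fieldRange v → v ^ a * (1 - v) ^ b = (s * g w) ^ n →
      Uniruled Ω (adjoin Ω {g x, g y, g z, v, s} : IntermediateField Ω N) 3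

theorem union_four (x y z w : K) : ({x, y, z} ∪ {w} : Set K) = {x, y, z, w} := by
  ext k
  simp only [Set.mem_union, Set.mem_insert_iff, Set.mem_singleton_iff]
  tauto

/-- algebraic elements of an intermediate field -/
theorem mem_acl_sub (E : IntermediateField Ω K) {x y z : E} :
    z ∈ Acl Ω {x, y} ↔ IsAlgebraic (adjoin Ω {(x : K), (y : K)}) (z : K) := by
  have e1 : ∀ k : E, k ∈ adjoin Ω {x, y} → (k : K) ∈ adjoin Ω {(x : K), (y : K)} := by
    intro k hk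
    have h1 : (k : K) ∈ lift (adjoin Ω {x, y}) := (mem_lift k).2 hk
    rwa [lift_adjoin, Set.image_pair] at h1
  have e2 : ∀ k : K, k ∈ adjoin Ω {(x : K), (y : K)} → ∃ l : E, (l : K) = k ∧
      l ∈ adjoin Ω {x, y} := by
    intro k hk
    have h1 : k ∈ lift (adjoin Ω {x, y}) := by
      rw [lift_adjoin, Set.image_pair]
      exact hk
    obtain ⟨l, hl, rfl⟩ := h1
    exact ⟨l, rfl, hl⟩
  let f : adjoin Ω {x, y} →+* adjoin Ω {(x : K), (y : K)} :=
    ((algebraMap E K).comp (algebraMap (adjoin Ω {x, y}) E)).codRestrict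
      (adjoin Ω {(x : K), (y : K)}).toSubfield.toSubring fun k => e1 k k.2
  constructor
  · intro h
    exact IsAlgebraic.ringHom_of_comp_eq f (algebraMap E K) h f.injective rfl
  · intro h
    refine IsAlgebraic.of_ringHom_of_comp_eq f (algebraMap E K) h ?_ (algebraMap E K).injective rfl
    rintro ⟨k, hk⟩
    obtain ⟨l, rfl, hl⟩ := e2 k hk
    exact ⟨⟨l, hl⟩, rfl⟩

theorem Twist.row {σ : A} {n a b : ℕ} {ζ : Ω} (h : Twist ρ H σ n a b ζ) :
    RowP3 Ω (fixed ρ H) (res ρ H σ) n a b ζ := by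
  obtain ⟨x, y, z, w, ⟨h1, h2, h3⟩, hw0, hz, hw, hc⟩ := h
  rw [union_four] at h1
  have hmem : ∀ k ∈ ({x, y, z, w} : Set K), k ∈ fixed ρ H := fun k hk => by
    have h4 : k ∈ adjoin Ω {x, y, z, w} := subset_adjoin _ _ hk
    rw [h1] at h4
    exact h4
  refine ⟨⟨x, hmem x (by simp)⟩, ⟨y, hmem y (by simp)⟩, ⟨z, hmem z (by simp)⟩,
    ⟨w, hmem w (by simp)⟩, (mem_acl_sub _).2 hz, ?_, fun h => hw0 (congrArg Subtype.val h), ?_,
    Subtype.ext (h2 x (by simp)), Subtype.ext (h2 y (by simp)), Subtype.ext (h2 z (by simp)),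
    Subtype.ext h3, fun N _ _ g v s hv hs => ?_⟩
  · apply lift_injective (fixed ρ H)
    rw [lift_top, lift_adjoin, Set.image_insert_eq, Set.image_insert_eq, Set.image_pair]
    exact h1
  · rw [← mem_lift, lift_adjoin, Set.image_insert_eq, Set.image_pair]
    exact hw
  · refine uni_ext (n := n) (α := a) (β := b) (fixed ρ H) (fun k => ?_) ⟨x, hmem x (by simp)⟩
      ⟨y, hmem y (by simp)⟩ ⟨z, hmem z (by simp)⟩ ⟨w, hmem w (by simp)⟩ hc N g v s hv (by
        rw [hs, mul_pow])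
    have : Finite (H.map ρ) := finite_map ρ H
    have h0 := (galois_fixed (H.map ρ)).1
    exact Algebra.IsAlgebraic.isAlgebraic k

theorem Twist.of_row {σ : A} {n a b : ℕ} {ζ : Ω}
    (h : RowP3 Ω (fixed ρ H) (res ρ H σ) n a b ζ) : Twist ρ H σ n a b ζ := by
  obtain ⟨x, y, z, w, hz, hM, hw0, hw, hx, hy, hzz, hσ, hc⟩ := h
  refine ⟨x, y, z, w, ⟨?_, ?_, congrArg Subtype.val hσ⟩, fun h => hw0 (Subtype.ext h),
    (mem_acl_sub _).1 hz, ?_, fun N _ _ g v s hv hs => ?_⟩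
  · rw [union_four]
    have h1 := congrArg (lift (F := fixed ρ H)) hM
    rw [lift_top, lift_adjoin, Set.image_insert_eq, Set.image_insert_eq, Set.image_pair] at h1
    exact h1
  · rintro k (rfl | rfl | rfl)
    exacts [congrArg Subtype.val hx, congrArg Subtype.val hy, congrArg Subtype.val hzz]
  · rw [← mem_lift, lift_adjoin, Set.image_insert_eq, Set.image_pair] at hw
    exact hw
  · refine hc N (g.comp (fixed ρ H).val) v s (fun h => hv ?_) (by
      rw [hs, mul_pow]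
      rfl)
    rw [alg_range] at h ⊢
    obtain ⟨p, hp0, hp⟩ := h
    refine ⟨p.map (algebraMap (fixed ρ H) K), ?_, ?_⟩
    · rw [Ne, Polynomial.map_eq_zero_iff (algebraMap (fixed ρ H) K).injective]
      exact hp0
    · rw [Polynomial.eval₂_map]
      exact hp

end

end Pool.Agent.Helper48.H3
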